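import Pool.Agent.R614.Rk.NonDef
set_option autoImplicit false

/-!
# There is no bound on the number of definable convex valuation rings with non-definable image

For every cardinal `κ` there is an ordered field `K` with value group `G = v_nat(Kˣ)` having more
than `κ` convex valuation rings `O ≠ K` which are definable in the ordered field `K` and such that
the convex subgroup `v_nat(Oˣ)` is not definable in the ordered group `G`.
-/

open Pool.Agent.R614.Rk

namespace Pool.Agent.Results.MP_d02918_lc.NoBound

universe u

theorem result (κ : Cardinal.{u}) :
    ∃ (K : Type u) (_ : Field K) (_ : LinearOrder K) (_ : IsStrictOrderedRing K)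
      (G : Type u) (_ : AddCommGroup G) (_ : LinearOrder G) (_ : IsOrderedAddMonoid G)
      (v : Kˣ → G), IsNaturalValuation v ∧
        κ < Cardinal.mk {O : Subring K // IsConvexValuationRing O ∧ DefK (O : Set K) ∧
          ¬ DefG (unitValues v O)} := by
  let Λ : Type u := (Order.succ κ).ord.ToType
  refine ⟨KT Λ, inferInstance, inferInstance, inferInstance, Gp Λ, inferInstance, inferInstance,
    inferInstance, nv, nv_natural, ?_⟩
  have h1 : κ < Cardinal.mk Λ := by
    rw [Cardinal.mk_ord_toType]
    exact Order.lt_succ κ
  refine h1.trans_le ?_
  refine Cardinal.mk_le_of_injective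
    (f := fun l : Λ => ⟨OO l, OO_convex l, OO_def l, not_def l⟩) ?_
  intro l m h
  exact OO_inj (congrArg Subtype.val h)

end Pool.Agent.Results.MP_d02918_lc.NoBound
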